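import Pool.Agent.Helper86.QA.St4
import Pool.Agent.Helper35.PQF.St

/-!
# Project QD part A, module SUM: convergence of the Poincare series beyond the entropy
-/

set_option autoImplicit false

open MeasureTheory Matrix Set Topology Filter
open scoped ENNReal ComplexConjugate ComplexOrder

namespace Pool.Agent.Helper16.QA

open Pool.Agent.Helper86.QA Pool.Agent.Helper20
open Pool.Agent.Helper35.PM (hs IsDiscrete ConvexCocompact limitSet ent num classes)
open Pool.Agent.Helper20.QD (CC)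

/-- Dyadic summation. -/
private lemma summable_of_count {ι : Type*} (f : ι → ℝ) (h1 : ∀ i, 1 ≤ f i)
    (hfin : ∀ X : ℝ, {i | f i ≤ X}.Finite) (K t s : ℝ) (hK : 0 ≤ K) (hts : t < s) (hs : 0 < s)
    (hc : ∀ X : ℝ, 1 ≤ X → ({i | f i ≤ X}.ncard : ℝ) ≤ K * X ^ t) :
    Summable (fun i => f i ^ (-s)) := by
  classical
  set q : ℝ := (2 : ℝ) ^ (t - s) with hq
  have hq0 : 0 ≤ q := by positivity
  have hq1 : q < 1 := Real.rpow_lt_one_of_one_lt_of_neg one_lt_two (by linarith)
  have hgeo : Summable fun n : ℕ => K * (2 : ℝ) ^ t * q ^ n :=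
    (summable_geometric_of_lt_one hq0 hq1).mul_left _
  refine summable_of_sum_le (c := ∑' n : ℕ, K * (2 : ℝ) ^ t * q ^ n)
    (fun i => by have := h1 i; positivity) (fun F => ?_)
  set κ : ι → ℕ := fun i => ⌊Real.logb 2 (f i)⌋₊ with hκ
  have hlow : ∀ i, (2 : ℝ) ^ (κ i : ℝ) ≤ f i := by
    intro i
    have h0 : 0 < f i := by linarith [h1 i]
    rw [← Real.le_logb_iff_rpow_le one_lt_two h0]
    exact Nat.floor_le (Real.logb_nonneg one_lt_two (h1 i))
  have hupp : ∀ i, f i ≤ (2 : ℝ) ^ ((κ i : ℝ) + 1) := by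
    intro i
    have h0 : 0 < f i := by linarith [h1 i]
    rw [← Real.logb_le_iff_le_rpow one_lt_two h0]
    exact (Nat.lt_floor_add_one _).le
  rw [← Finset.sum_fiberwise_of_maps_to (t := F.image κ)
    (fun i hi => Finset.mem_image_of_mem _ hi)]
  refine (Finset.sum_le_sum fun n _ => ?_).trans
    (hgeo.sum_le_tsum (F.image κ) fun n _ => by positivity)
  have h2 : ∀ i ∈ F.filter (fun i => κ i = n), f i ^ (-s) ≤ ((2 : ℝ) ^ (n : ℝ)) ^ (-s) := by
    intro i hi
    have hi2 := (Finset.mem_filter.1 hi).2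
    rw [← hi2]
    exact Real.rpow_le_rpow_of_nonpos (by positivity) (hlow i) (by linarith)
  have h3 : ((F.filter (fun i => κ i = n)).card : ℝ) ≤ K * ((2 : ℝ) ^ ((n : ℝ) + 1)) ^ t := by
    refine le_trans ?_ (hc _ (Real.one_le_rpow one_le_two (by positivity)))
    have h4 : (F.filter (fun i => κ i = n)).card ≤
        {i | f i ≤ (2 : ℝ) ^ ((n : ℝ) + 1)}.ncard := by
      rw [← Set.ncard_coe_finset]
      refine Set.ncard_le_ncard (fun i hi => ?_) (hfin _)
      have hi2 := (Finset.mem_filter.1 (Finset.mem_coe.1 hi)).2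
      have := hupp i
      rw [hi2] at this
      exact this
    exact_mod_cast h4
  refine (Finset.sum_le_card_nsmul _ _ _ h2).trans ?_
  rw [nsmul_eq_mul]
  refine (mul_le_mul_of_nonneg_right h3 (by positivity)).trans (le_of_eq ?_)
  rw [← Real.rpow_mul (by norm_num), ← Real.rpow_mul (by norm_num), hq, ← Real.rpow_natCast,
    ← Real.rpow_mul (by norm_num), mul_assoc, mul_assoc, ← Real.rpow_add (by norm_num),
    ← Real.rpow_add (by norm_num)]
  congr 2
  ring

/-- Module SUM. -/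
theorem hSUM (hCL : Pool.Agent.Helper35.PM.St_CL) (hLN : Pool.Agent.Helper35.PM.St_LN)
    (hHS2 : Pool.Agent.Helper35.PM.St_HS2) (hOCT : StOCT) (hIRR : StIRR) : StSUM := by
  intro Γ _ ρ hcc hj s hs0 hent
  obtain ⟨C, hC, hN⟩ := hOCT Γ ρ hcc (hIRR Γ ρ hcc hj)
  obtain ⟨-, C2, hC2, hnum⟩ := hCL Γ ρ hcc.discrete hcc.cocompact
  obtain ⟨s1, hs1, hs1'⟩ := exists_between (max_lt hs0 hent)
  obtain ⟨s2, hs2, hs2'⟩ := exists_between hs1'
  have hs1p : 0 < s1 := (le_max_left _ _).trans_lt hs1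
  have hs1e : ent ρ < s1 := (le_max_right _ _).trans_lt hs1
  -- eventual bound for the number of classes
  have hbdd : IsBoundedUnder (· ≤ ·) atTop (fun T : ℝ => Real.log (num ρ T) / T) := by
    refine ⟨|Real.log C2| + 2, ?_⟩
    rw [eventually_map]
    filter_upwards [eventually_ge_atTop 1] with T hT
    have hT0 : 0 < T := by linarith
    rw [div_le_iff₀ hT0]
    have hl : Real.log (num ρ T) ≤ |Real.log C2| + 2 * T := by
      rcases Nat.eq_zero_or_pos (num ρ T) with h0 | h0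
      · rw [h0, Nat.cast_zero, Real.log_zero]
        positivity
      · have h1 : (0 : ℝ) < num ρ T := by exact_mod_cast h0
        have h2 := Real.log_le_log h1 (hnum T hT0.le)
        rw [Real.log_mul hC2.ne' (Real.exp_pos _).ne', Real.log_exp] at h2
        linarith [le_abs_self (Real.log C2)]
    nlinarith [abs_nonneg (Real.log C2)]
  have hev : ∀ᶠ T : ℝ in atTop, Real.log (num ρ T) / T < s1 :=
    eventually_lt_of_limsup_lt hs1e hbdd
  obtain ⟨T0, hT0⟩ := eventually_atTop.1 hev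
  have hnum2 : ∀ T : ℝ, max T0 1 ≤ T → (num ρ T : ℝ) ≤ Real.exp (s1 * T) := by
    intro T hT
    have hT1 : 0 < T := by linarith [le_max_right T0 1]
    rcases Nat.eq_zero_or_pos (num ρ T) with h0 | h0
    · rw [h0, Nat.cast_zero]
      positivity
    · have h1 : (0 : ℝ) < num ρ T := by exact_mod_cast h0
      have h2 := hT0 T ((le_max_left _ _).trans hT)
      rw [div_lt_iff₀ hT1] at h2
      rw [← Real.log_le_iff_le_exp h1]
      exact h2.le
  -- polynomial bound for the orbit counting function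
  set X0 : ℝ := max 1 (Real.exp (max T0 1) / C) with hX0
  set δ : ℝ := s2 - s1 with hδ
  have hδ0 : 0 < δ := by rw [hδ]; linarith
  set K1 : ℝ := C * (1 + 1 / δ) * (1 + C ^ s1) with hK1
  have hK1p : 0 ≤ K1 := by positivity
  have hfin : ∀ X : ℝ, {γ : Γ | hs (ρ γ : Mat) ≤ X}.Finite := hcc.discrete
  have hlarge : ∀ X : ℝ, X0 ≤ X → (({γ : Γ | hs (ρ γ : Mat) ≤ X}.ncard : ℝ)) ≤ K1 * X ^ s2 := by
    intro X hX
    have hX1 : 1 ≤ X := (le_max_left _ _).trans hX
    have hXp : 0 < X := by linarith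
    refine (hN X hX1).trans ?_
    have hCX : Real.exp (max T0 1) ≤ C * X := by
      have := (le_max_right _ _).trans hX
      rwa [div_le_iff₀ hC, mul_comm] at this
    have hCXp : 0 < C * X := by positivity
    have h3 : max T0 1 ≤ Real.log (C * X) := (Real.le_log_iff_exp_le hCXp).2 hCX
    have h4 : (num ρ (Real.log (C * X)) : ℝ) ≤ C ^ s1 * X ^ s1 := by
      refine (hnum2 _ h3).trans (le_of_eq ?_)
      rw [mul_comm s1, ← Real.rpow_def_of_pos hCXp, Real.mul_rpow hC.le hXp.le]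
    have h5 : 1 + Real.log X ≤ (1 + 1 / δ) * X ^ δ := by
      have h6 := Real.log_le_rpow_div hXp.le hδ0
      have h7 : 1 ≤ X ^ δ := Real.one_le_rpow hX1 hδ0.le
      rw [add_mul, one_mul, one_div, inv_mul_eq_div]
      linarith
    have h8 : 1 + (num ρ (Real.log (C * X)) : ℝ) ≤ (1 + C ^ s1) * X ^ s1 := by
      have h7 : 1 ≤ X ^ s1 := Real.one_le_rpow hX1 hs1p.le
      rw [add_mul, one_mul]
      linarith
    have h9 : X ^ s2 = X ^ δ * X ^ s1 := by
      rw [← Real.rpow_add hXp]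
      congr 1
      rw [hδ]
      ring
    have hl0 : 0 ≤ Real.log X := Real.log_nonneg hX1
    calc C * (1 + Real.log X) * (1 + (num ρ (Real.log (C * X)) : ℝ))
        ≤ C * ((1 + 1 / δ) * X ^ δ) * ((1 + C ^ s1) * X ^ s1) := by
          refine mul_le_mul (mul_le_mul_of_nonneg_left h5 hC.le) h8 (by positivity)
            (by positivity)
      _ = K1 * X ^ s2 := by rw [h9, hK1]; ring
  set K2 : ℝ := max K1 (({γ : Γ | hs (ρ γ : Mat) ≤ X0}.ncard : ℝ)) with hK2
  have hK2p : 0 ≤ K2 := hK1p.trans (le_max_left _ _)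
  have hs2p : 0 < s2 := by linarith
  have hall : ∀ X : ℝ, 1 ≤ X → (({γ : Γ | hs (ρ γ : Mat) ≤ X}.ncard : ℝ)) ≤ K2 * X ^ s2 := by
    intro X hX1
    have hXp : 0 < X := by linarith
    rcases le_total X0 X with h | h
    · exact (hlarge X h).trans (mul_le_mul_of_nonneg_right (le_max_left _ _) (by positivity))
    · have h1 : ({γ : Γ | hs (ρ γ : Mat) ≤ X}.ncard : ℝ) ≤
          ({γ : Γ | hs (ρ γ : Mat) ≤ X0}.ncard : ℝ) := by
        exact_mod_cast Set.ncard_le_ncard (fun γ hγ => le_trans hγ h) (hfin X0)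
      have h2 : 1 ≤ X ^ s2 := Real.one_le_rpow hX1 hs2p.le
      calc ({γ : Γ | hs (ρ γ : Mat) ≤ X}.ncard : ℝ) ≤ K2 := h1.trans (le_max_right _ _)
        _ ≤ K2 * X ^ s2 := le_mul_of_one_le_right hK2p h2
  refine summable_of_count (fun γ : Γ => hs (ρ γ : Mat)) (fun γ => ?_) hfin K2 s2 s hK2p hs2' hs0
    hall
  have h1 := (hHS2.2.2.1 (ρ γ))
  exact (Real.one_le_exp h1.1).trans h1.2

end Pool.Agent.Helper16.QA
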