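import Pool.Agent.Helper86.QA.St1

/-!
# Project QD, part A, module SW0: exchange of fundamental domains
-/

set_option autoImplicit false

open MeasureTheory Matrix Set Topology
open scoped ENNReal ComplexConjugate

namespace Pool.Agent.Helper16.QA

open Pool.Agent.Helper86.QA

private theorem tsum_ind {Γ α : Type} [Group Γ] [MeasurableSpace α] {a : Γ → α → α} {S D : Set α}
    (hD : FDOn a S D) {x : α} (hx : x ∈ S) :
    ∑' γ : Γ, D.indicator (fun _ => (1 : ℝ≥0∞)) (a γ x) = 1 := by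
  obtain ⟨γ0, h0, huniq⟩ := hD.ex x hx
  rw [tsum_eq_single γ0]
  · exact Set.indicator_of_mem h0 _
  · intro γ hγ
    apply Set.indicator_of_notMem
    intro hmem
    exact hγ (huniq γ hmem)

private theorem unf {Γ β : Type} [Countable Γ] [MeasurableSpace β] (ν : Measure β)
    (c : Γ → β → ℝ≥0∞) (k : β → ℝ≥0∞) (hc : ∀ γ, Measurable (c γ)) (hk : Measurable k)
    (h1 : ∀ᵐ y ∂ν, ∑' γ, c γ y = 1) : ∫⁻ y, k y ∂ν = ∑' γ, ∫⁻ y, c γ y * k y ∂ν := by
  have hm : ∀ γ, AEMeasurable (fun y => c γ y * k y) ν := fun γ => ((hc γ).mul hk).aemeasurable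
  rw [← lintegral_tsum hm]
  apply lintegral_congr_ae
  filter_upwards [h1] with y hy
  rw [ENNReal.tsum_mul_right, hy, one_mul]

private theorem ind_mul {α : Type} (D : Set α) (f : α → ℝ≥0∞) (x : α) :
    D.indicator f x = D.indicator (fun _ => (1 : ℝ≥0∞)) x * f x := by
  by_cases hx : x ∈ D
  · rw [Set.indicator_of_mem hx, Set.indicator_of_mem hx, one_mul]
  · rw [Set.indicator_of_notMem hx, Set.indicator_of_notMem hx, zero_mul]

theorem hSW0 : StSW0 := by
  intro Γ _ _ α β _ _ a b S D T D' μ ν _ _ h hA hB hD hD' hm hinv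
  have aeS : ∀ᵐ x ∂μ, x ∈ S := ae_iff.2 hA.nS
  have aeT : ∀ᵐ y ∂ν, y ∈ T := ae_iff.2 hB.nS
  obtain ⟨iD, hiD⟩ : ∃ f : α → ℝ≥0∞, f = D.indicator (fun _ => (1 : ℝ≥0∞)) := ⟨_, rfl⟩
  obtain ⟨iD', hiD'⟩ : ∃ f : β → ℝ≥0∞, f = D'.indicator (fun _ => (1 : ℝ≥0∞)) := ⟨_, rfl⟩
  have mD : Measurable iD := by
    rw [hiD]
    exact measurable_const.indicator hD.mD
  have mD' : Measurable iD' := by
    rw [hiD']
    exact measurable_const.indicator hD'.mD
  have mx : ∀ x, Measurable fun y => h x y := fun x => hm.comp measurable_prodMk_left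
  have tD : ∀ x ∈ S, ∑' γ : Γ, iD (a γ x) = 1 := by
    intro x hx
    rw [hiD]
    exact tsum_ind hD hx
  have tD' : ∀ y ∈ T, ∑' γ : Γ, iD' (b γ y) = 1 := by
    intro y hy
    rw [hiD']
    exact tsum_ind hD' hy
  -- left side
  have hL : ∫⁻ x in D, ∫⁻ y, h x y ∂ν ∂μ =
      ∑' γ : Γ, ∫⁻ x, iD x * ∫⁻ y, iD' (b γ y) * h x y ∂ν ∂μ := by
    rw [← lintegral_indicator hD.mD, ← lintegral_tsum]
    · apply lintegral_congr
      intro x
      rw [ind_mul, ENNReal.tsum_mul_left, hiD]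
      congr 1
      exact unf ν (fun γ y => iD' (b γ y)) (fun y => h x y) (fun γ => mD'.comp (hB.me γ)) (mx x)
        (aeT.mono fun y hy => tD' y hy)
    · intro γ
      apply Measurable.aemeasurable
      apply mD.mul
      apply Measurable.lintegral_prod_right'
        (f := fun p : α × β => iD' (b γ p.2) * h p.1 p.2)
      exact (mD'.comp ((hB.me γ).comp measurable_snd)).mul hm
  -- right side
  have hR : ∫⁻ x, ∫⁻ y in D', h x y ∂ν ∂μ =
      ∑' γ : Γ, ∫⁻ x, iD (a γ x) * ∫⁻ y, iD' y * h x y ∂ν ∂μ := by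
    have h1 : ∀ x, ∫⁻ y in D', h x y ∂ν = ∫⁻ y, iD' y * h x y ∂ν := by
      intro x
      rw [← lintegral_indicator hD'.mD]
      apply lintegral_congr
      intro y
      rw [ind_mul, hiD']
    simp only [h1]
    apply unf μ (fun γ x => iD (a γ x)) (fun x => ∫⁻ y, iD' y * h x y ∂ν)
      (fun γ => mD.comp (hA.me γ))
    · apply Measurable.lintegral_prod_right' (f := fun p : α × β => iD' p.2 * h p.1 p.2)
      exact (mD'.comp measurable_snd).mul hm
    · exact aeS.mono fun x hx => tD x hx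
  rw [hL, hR, ← (Equiv.inv Γ).tsum_eq]
  congr 1
  funext γ
  have mK : Measurable fun x => iD (a γ x) * ∫⁻ y, iD' y * h x y ∂ν := by
    apply (mD.comp (hA.me γ)).mul
    apply Measurable.lintegral_prod_right' (f := fun p : α × β => iD' p.2 * h p.1 p.2)
    exact (mD'.comp measurable_snd).mul hm
  rw [← hA.pr γ⁻¹ _ mK]
  apply lintegral_congr_ae
  filter_upwards [aeS] with x hx
  have h2 : a γ (a γ⁻¹ x) = x := by
    rw [← hA.mul γ γ⁻¹ x hx, mul_inv_cancel, hA.one x hx]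
  rw [h2]
  congr 1
  have mK' : Measurable fun y => iD' y * h (a γ⁻¹ x) y := mD'.mul (mx (a γ⁻¹ x))
  rw [← hB.pr γ⁻¹ _ mK']
  apply lintegral_congr_ae
  filter_upwards [aeT] with y hy
  show iD' (b γ⁻¹ y) * h x y = iD' (b γ⁻¹ y) * h (a γ⁻¹ x) (b γ⁻¹ y)
  rw [hinv γ⁻¹ x hx y hy]

end Pool.Agent.Helper16.QA
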